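import Mathlib

set_option autoImplicit false

/-!
# Products of vertex-transitive graphs of order `p` or `p ^ 2`
-/

namespace Pool.Agent.H79.VT

open SimpleGraph

/-- `TransProd V X`: the graph `X` with the vertex set `V` is a Cartesian product of vertex-transitive
graphs each of which has `p` or `p ^ 2` vertices for some prime number `p ≥ 5` (different primes
are allowed).

`transitive`: a graph with `p` or `p ^ 2` vertices, `p ≥ 5` prime, is in the class if for any two
vertices `u` and `v` there is an automorphism `φ` of the graph with `φ u = v`.

`prod`: the class is closed under Cartesian products (`□`). -/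
inductive TransProd : (V : Type) → SimpleGraph V → Prop
  | transitive (p : ℕ) (V : Type) (X : SimpleGraph V) : p.Prime → 5 ≤ p →
      (Nat.card V = p ∨ Nat.card V = p ^ 2) → (∀ u v : V, ∃ φ : X ≃g X, φ u = v) → TransProd V X
  | prod (V W : Type) (X : SimpleGraph V) (Y : SimpleGraph W) : TransProd V X → TransProd W Y →
      TransProd (V × W) (X □ Y)

end Pool.Agent.H79.VT
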