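import Pool.Agent.H79.VT.Main
import Pool.Agent.H79.VT.Defs
import Pool.Agent.H79.LA.H931R3_LATop
import Pool.Agent.H79.LA.TH525_FRG_Hom

set_option autoImplicit false

/-!
# Products of vertex-transitive graphs of order `p` or `p ^ 2`
-/

namespace Pool.Agent.H79.VT

open SimpleGraph H931R3.LA Pool.Agent.W111.LAR Pool.Agent.TH486.LAC Pool.Agent.Y647.LAC

/-- the handshaking lemma: a regular graph of odd order has even degree -/
theorem even_deg {V : Type} [Finite V] (X : SimpleGraph V) (r : ℕ) (hodd : Odd (Nat.card V))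
    (hr : ∀ v, (X.neighborSet v).ncard = r) : Even r := by
  classical
  have := Fintype.ofFinite V
  have h1 := X.sum_degrees_eq_twice_card_edges
  have h2 : ∀ v, X.degree v = r := by
    intro v
    rw [← hr v, ← X.card_neighborSet_eq_degree, Set.ncard_eq_toFinset_card',
      Set.toFinset_card]
  simp only [h2, Finset.sum_const, Finset.card_univ, smul_eq_mul] at h1
  rw [← Nat.card_eq_fintype_card] at h1
  have h3 : Even (Nat.card V * r) := ⟨_, by rw [h1]; ring⟩
  rw [Nat.even_mul] at h3
  exact h3.resolve_left (Nat.not_even_iff_odd.2 hodd)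

/-- the bound -/
def bnd (r : ℕ) : ℕ := if r = 0 then 0 else r / 2 + 1

theorem cov_zero {V : Type} [Finite V] (X : SimpleGraph V)
    (h : ∀ v, (X.neighborSet v).ncard = 0) : Cov X 0 := by
  refine ⟨fun i => i.elim0, fun i => i.elim0, ?_⟩
  ext u v
  constructor
  · intro h1
    rw [iSup_adj] at h1
    obtain ⟨i, _⟩ := h1
    exact i.elim0
  · intro h1
    have h2 : X.neighborSet u = ∅ := (Set.ncard_eq_zero (Set.toFinite _)).1 (h u)
    have h3 : v ∈ X.neighborSet u := h1
    rw [h2] at h3
    exact h3.elim

theorem TransProd.main {V : Type} {X : SimpleGraph V} (h : TransProd V X) :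
    Finite V ∧ Nonempty V ∧ ∃ r, Even r ∧ (∀ v, (X.neighborSet v).ncard = r) ∧
      Cov X (bnd r) := by
  induction h with
  | transitive p V X hp h5 hV ht =>
    have : Fact p.Prime := ⟨hp⟩
    have hpos : 0 < Nat.card V := by
      rcases hV with h | h <;> rw [h]
      · exact hp.pos
      · exact pow_pos hp.pos 2
    obtain ⟨hne, hfin⟩ := Nat.card_pos_iff.1 hpos
    obtain ⟨r, hr, hc⟩ := covers_transitive (p := p) h5 hV X ht
    have hodd : Odd (Nat.card V) := by
      have hpo : Odd p := hp.odd_of_ne_two (by omega)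
      rcases hV with hB | hB
      · rwa [hB]
      · rw [hB]
        exact hpo.pow
    have he := even_deg X r hodd hr
    refine ⟨hfin, hne, r, he, hr, ?_⟩
    unfold bnd
    split_ifs with h0
    · subst h0
      exact cov_zero X hr
    · have h1 := hc (Nat.pos_of_ne_zero h0) V X id (fun a b h => h) (fun a b c _ _ h => h)
      have h2 : (r + 2) / 2 = r / 2 + 1 := by omega
      rwa [h2] at h1
  | prod V W X Y _ _ ih1 ih2 =>
    obtain ⟨_, _, r, her, hr, hc⟩ := ih1
    obtain ⟨_, _, s, hes, hs, hd⟩ := ih2
    refine ⟨inferInstance, inferInstance, r + s, her.add hes, deg_reg X Y r s hr hs, ?_⟩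
    obtain ⟨a, rfl⟩ := her
    obtain ⟨b, rfl⟩ := hes
    unfold bnd at *
    split_ifs with h0
    · refine cov_zero _ fun v => ?_
      rw [deg_reg X Y _ _ hr hs, h0]
    · have hc' : Cov X ((a + a + (b + b)) / 2 + 1) := by
        refine hc.mono ?_
        split_ifs <;> omega
      refine cov_boxProd_all hc' hd fun v => ?_
      rw [hr]
      split_ifs <;> omega

end Pool.Agent.H79.VT
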