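import Mathlib

set_option autoImplicit false

/-!
# Transitive permutation groups of degree `p` and `p ^ 2`

A transitive group of permutations of a set with `p` or `p ^ 2` elements has a transitive abelian
subgroup.
-/

namespace Pool.Agent.H79.VT

open MulAction

variable {p : ℕ} [hp : Fact p.Prime] {V : Type} [Finite V]

/-- A Sylow subgroup of a transitive group of degree `p ^ k` is transitive. -/
theorem sylow_transitive {K : Type} [Group K] [Finite K] [MulAction K V] {k : ℕ}
    (hV : Nat.card V = p ^ k) (ht : ∀ u v : V, ∃ g : K, g • u = v) (P : Sylow p K) (u v : V) :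
    ∃ g ∈ (P : Subgroup K), g • u = v := by
  have h1 : Nat.card (orbit K u) * Nat.card (stabilizer K u) = Nat.card K := by
    rw [← Nat.card_prod]
    exact Nat.card_congr (orbitProdStabilizerEquivGroup K u)
  have h2 : Nat.card (orbit K u) = p ^ k := by
    have : orbit K u = Set.univ := by
      ext w
      simp only [Set.mem_univ, iff_true]
      exact ht u w
    rw [this, Nat.card_univ, hV]
  have h3 : Nat.card (orbit (P : Subgroup K) u) * Nat.card (stabilizer (P : Subgroup K) u) =
      Nat.card (P : Subgroup K) := by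
    rw [← Nat.card_prod]
    exact Nat.card_congr (orbitProdStabilizerEquivGroup (P : Subgroup K) u)
  -- the stabilizer in `P` is a subgroup of the stabilizer in `K`
  have h4 : Nat.card (stabilizer (P : Subgroup K) u) ∣ Nat.card (stabilizer K u) := by
    have h5 : (stabilizer (P : Subgroup K) u).map (P : Subgroup K).subtype ≤ stabilizer K u := by
      rintro _ ⟨g, hg, rfl⟩
      exact hg
    have h6 := Subgroup.card_dvd_of_le h5
    rwa [Subgroup.card_map_of_injective (Subgroup.subtype_injective _)] at h6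
  obtain ⟨b, hb⟩ : ∃ b, Nat.card (stabilizer (P : Subgroup K) u) = p ^ b := by
    have := P.isPGroup'.to_subgroup (stabilizer (P : Subgroup K) u)
    exact IsPGroup.iff_card.1 this
  have h7 : p ^ (k + b) ∣ Nat.card (P : Subgroup K) := by
    apply P.pow_dvd_card_of_pow_dvd_card
    rw [← h1, h2, pow_add]
    exact Nat.mul_dvd_mul_left _ (hb ▸ h4)
  rw [← h3, hb, pow_add] at h7
  have h8 : p ^ k ∣ Nat.card (orbit (P : Subgroup K) u) :=
    Nat.dvd_of_mul_dvd_mul_right (pow_pos hp.out.pos _) h7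
  have h9 : p ^ k ≤ Nat.card (orbit (P : Subgroup K) u) := by
    apply Nat.le_of_dvd _ h8
    have : Nonempty (orbit (P : Subgroup K) u) := ⟨⟨u, mem_orbit_self u⟩⟩
    exact Nat.card_pos
  have h10 : orbit (P : Subgroup K) u = Set.univ := by
    apply Set.eq_of_subset_of_ncard_le (Set.subset_univ _) _ (Set.toFinite _)
    rw [Set.ncard_univ, hV]
    exact h9
  have h11 : v ∈ orbit (P : Subgroup K) u := h10 ▸ Set.mem_univ v
  obtain ⟨g, hg⟩ := h11
  exact ⟨g, g.2, hg⟩

/-- A transitive group of permutations of degree `p` or `p ^ 2` contains a transitive abelian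
subgroup. -/
theorem exists_abelian (K : Subgroup (Equiv.Perm V)) (hV : Nat.card V = p ∨ Nat.card V = p ^ 2)
    (ht : ∀ u v : V, ∃ g ∈ K, g u = v) :
    ∃ A : Subgroup (Equiv.Perm V), A ≤ K ∧ (∀ a ∈ A, ∀ b ∈ A, a * b = b * a) ∧
      ∀ u v : V, ∃ a ∈ A, a u = v := by
  classical
  obtain ⟨k, hk, hV'⟩ : ∃ k, 1 ≤ k ∧ k ≤ 2 ∧ Nat.card V = p ^ k := by
    rcases hV with h | h
    · exact ⟨1, le_rfl, by norm_num, by rw [h, pow_one]⟩
    · exact ⟨2, by norm_num, le_rfl, h⟩
  obtain ⟨hk2, hV'⟩ := hV'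
  have hp1 := hp.out.one_lt
  have hcard : 1 < Nat.card V := by
    rw [hV']
    exact Nat.one_lt_pow (by omega) hp1
  have : Nontrivial V := (Finite.one_lt_card_iff_nontrivial).1 hcard
  obtain ⟨v0, v1, h01⟩ := exists_pair_ne V
  have htK : ∀ u v : V, ∃ g : K, g • u = v := fun u v => by
    obtain ⟨g, hg, h⟩ := ht u v
    exact ⟨⟨g, hg⟩, h⟩
  obtain ⟨P⟩ : Nonempty (Sylow p K) := inferInstance
  have hP := fun u v => sylow_transitive hV' htK P u v
  have hPn : Nontrivial (P : Subgroup K) := by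
    obtain ⟨g, hg, h⟩ := hP v0 v1
    refine ⟨⟨⟨g, hg⟩, 1, fun h1 => h01 ?_⟩⟩
    have h2 : g = 1 := congrArg Subtype.val h1
    rw [← h, h2, one_smul]
  have hPp : IsPGroup p (P : Subgroup K) := P.isPGroup'
  have hZ := hPp.center_nontrivial
  obtain ⟨z, hz⟩ := exists_ne (1 : Subgroup.center (P : Subgroup K))
  -- `z` moves `v0`
  have hzc : ∀ g : (P : Subgroup K), g * z.1 = z.1 * g := fun g =>
    Subgroup.mem_center_iff.1 z.2 g
  set z' : (P : Subgroup K) := z.1 with hz'
  have hz1 : z' ≠ 1 := fun h => hz (Subtype.ext h)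
  have hzv : ∀ v : V, z' • v ≠ v := by
    intro v hv
    apply hz1
    have : ∀ w : V, z' • w = w := by
      intro w
      obtain ⟨g, hg, rfl⟩ := hP v w
      have h1 : (⟨g, hg⟩ : (P : Subgroup K)) • v = g • v := rfl
      rw [← h1, ← mul_smul, ← hzc ⟨g, hg⟩, mul_smul, hv]
    apply Subtype.ext
    apply Subtype.ext
    apply Equiv.ext
    intro w
    exact this w
  -- the second element
  obtain ⟨g, hg⟩ : ∃ g : (P : Subgroup K), (∀ w : V, w ∈ orbit (Subgroup.zpowers z') v0) ∨
      g • v0 ∉ orbit (Subgroup.zpowers z') v0 := by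
    by_cases h : ∀ w : V, w ∈ orbit (Subgroup.zpowers z') v0
    · exact ⟨1, Or.inl h⟩
    · push Not at h
      obtain ⟨w, hw⟩ := h
      obtain ⟨g, hg, rfl⟩ := hP v0 w
      exact ⟨⟨g, hg⟩, Or.inr hw⟩
  set B : Subgroup (P : Subgroup K) := Subgroup.closure {z', g} with hB
  have hzB : z' ∈ B := Subgroup.subset_closure (by simp)
  have hgB : g ∈ B := Subgroup.subset_closure (by simp)
  have hcomm : ∀ a ∈ B, ∀ b ∈ B, a * b = b * a := by
    have h1 : ∀ x ∈ ({z', g} : Set (P : Subgroup K)), ∀ y ∈ ({z', g} : Set (P : Subgroup K)),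
        x * y = y * x := by
      intro x hx y hy
      rcases hx with rfl | rfl <;> rcases hy with rfl | rfl
      · rfl
      · exact (hzc _).symm
      · exact hzc _
      · rfl
    intro a ha b hb
    have h2 := (Subgroup.isMulCommutative_closure h1).is_comm.comm ⟨a, ha⟩ ⟨b, hb⟩
    exact congrArg Subtype.val h2
  -- the orbit
  have horb : ∀ w : V, w ∈ orbit B v0 := by
    have hBp : IsPGroup p B := hPp.to_subgroup B
    obtain ⟨n, hn⟩ := hBp.card_orbit v0
    have hZp : IsPGroup p (Subgroup.zpowers z') := hPp.to_subgroup _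
    obtain ⟨m, hm⟩ := hZp.card_orbit v0
    have hle : orbit (Subgroup.zpowers z') v0 ⊆ orbit B v0 := by
      rintro _ ⟨⟨x, hx⟩, rfl⟩
      have hxB : x ∈ B := by
        have : Subgroup.zpowers z' ≤ B := by
          rw [Subgroup.zpowers_le]
          exact hzB
        exact this hx
      exact ⟨⟨x, hxB⟩, rfl⟩
    have hm1 : 1 ≤ m := by
      by_contra hcon
      have h0 : m = 0 := by omega
      rw [h0, pow_zero] at hm
      have hs : Subsingleton (orbit (Subgroup.zpowers z') v0) :=
        (Nat.card_eq_one_iff_unique.1 hm).1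
      have h1 : z' • v0 ∈ orbit (Subgroup.zpowers z') v0 :=
        ⟨⟨z', Subgroup.mem_zpowers z'⟩, rfl⟩
      have h2 := congrArg Subtype.val
        (Subsingleton.elim (⟨z' • v0, h1⟩ : orbit (Subgroup.zpowers z') v0) ⟨v0, mem_orbit_self v0⟩)
      exact hzv v0 h2
    rcases hg with hg | hg
    · intro w
      exact hle (hg w)
    · have h1 : (orbit (Subgroup.zpowers z') v0).ncard < (orbit B v0).ncard := by
        apply Set.ncard_lt_ncard _ (Set.toFinite _)
        refine ⟨hle, fun h => hg (h ⟨⟨g, hgB⟩, rfl⟩)⟩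
      have h2 : p ^ m < p ^ n := by
        rw [← hn, ← hm]
        exact h1
      have h3 : m < n := (Nat.pow_lt_pow_iff_right hp1).1 h2
      have h4 : orbit B v0 = Set.univ := by
        apply Set.eq_of_subset_of_ncard_le (Set.subset_univ _) _ (Set.toFinite _)
        rw [Set.ncard_univ, hV']
        have h5 : (orbit B v0).ncard = p ^ n := hn
        rw [h5]
        exact Nat.pow_le_pow_right hp.out.pos (by omega)
      intro w
      rw [h4]
      trivial
  -- the image in the permutations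
  refine ⟨(B.map (P : Subgroup K).subtype).map K.subtype, ?_, ?_, ?_⟩
  · rintro _ ⟨x, _, rfl⟩
    exact x.2
  · rintro _ ⟨_, ⟨a, ha, rfl⟩, rfl⟩ _ ⟨_, ⟨b, hb, rfl⟩, rfl⟩
    have h1 := hcomm a ha b hb
    rw [← map_mul, ← map_mul, ← map_mul, ← map_mul, h1]
  · have h1 : ∀ w : V, ∃ a ∈ B, a • v0 = w := by
      intro w
      obtain ⟨⟨a, ha⟩, h⟩ := horb w
      exact ⟨a, ha, h⟩
    intro u v
    obtain ⟨a, ha, hau⟩ := h1 u
    obtain ⟨b, hb, hbv⟩ := h1 v
    refine ⟨K.subtype ((P : Subgroup K).subtype (b * a⁻¹)),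
      ⟨_, ⟨b * a⁻¹, B.mul_mem hb (B.inv_mem ha), rfl⟩, rfl⟩, ?_⟩
    have h2 : (b * a⁻¹) • u = v := by
      rw [← hau, mul_smul, inv_smul_smul, hbv]
    exact h2

end Pool.Agent.H79.VT
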