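import Pool.Agent.H79.VT.Grp
import Pool.Agent.H79.LA.TH486_LAC_Final
import Pool.Agent.H79.LA.TH486_LAC_Lift
import Pool.Agent.H79.LA.Y647_LAC_Even

set_option autoImplicit false

/-!
# Vertex-transitive graphs of order `p` and `p ^ 2`
-/

namespace Pool.Agent.H79.VT

open SimpleGraph H931R3.LA Pool.Agent.W111.LAR Pool.Agent.TH486.LAC Pool.Agent.Y647.LAC

/-- every graph with a locally injective homomorphism to `X` is the union of `k` linear forests -/
def Covers {V : Type} (X : SimpleGraph V) (k : ℕ) : Prop :=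
  ∀ (W : Type) [Finite W] (G : SimpleGraph W) (f : W → V), (∀ a b, G.Adj a b → X.Adj (f a) (f b)) →
    (∀ a b c, G.Adj a b → G.Adj a c → f b = f c → b = c) → Cov G k

theorem Covers.equiv {V V' : Type} {X : SimpleGraph V} {X' : SimpleGraph V'} {k : ℕ}
    (h : Covers X' k) (e : V → V') (he : Function.Injective e)
    (hadj : ∀ u v, X.Adj u v → X'.Adj (e u) (e v)) : Covers X k := by
  intro W _ G f hom inj
  exact h W G (fun w => e (f w)) (fun a b hab => hadj _ _ (hom a b hab))
    (fun a b c hab hac hbc => inj a b c hab hac (he hbc))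

theorem covers_of_ld {V : Type} [Finite V] {X : SimpleGraph V} {N : ℕ} (h : LD X N) :
    Covers X (N + 1) := fun _ _ G f hom inj => h.lift G f hom inj

variable {p : ℕ} [hp : Fact p.Prime]

/-- Cayley graphs of abelian groups of order `p` or `p ^ 2`. -/
theorem covers_cay (h5 : 5 ≤ p) {B : Type} [AddCommGroup B] [Finite B]
    (hB : Nat.card B = p ∨ Nat.card B = p ^ 2) (S : Finset B) (hS : S.Nonempty)
    (Y : SimpleGraph B) (hY : ∀ v w, Y.Adj v w ↔ w - v ∈ S) : Covers Y (S.card / 2 + 1) := by
  classical
  have h0 : (0 : B) ∉ S := by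
    intro h
    have h1 : Y.Adj 0 0 := (hY 0 0).2 (by rwa [sub_zero])
    exact Y.irrefl h1
  have hneg : ∀ x ∈ S, -x ∈ S := by
    intro x hx
    have h1 : Y.Adj 0 x := (hY 0 x).2 (by rwa [sub_zero])
    have h2 := (hY x 0).1 h1.symm
    rwa [zero_sub] at h2
  by_cases hexp : ∀ x : B, p • x = 0
  · let _ : Module (ZMod p) B := AddCommGroup.zmodModule hexp
    exact covers_of_ld (ld_all (p := p) h5 S hS h0 hneg Y hY)
  · push Not at hexp
    obtain ⟨x, hx⟩ := hexp
    have hcyc : IsAddCyclic B := by
      have hd : addOrderOf x ∣ Nat.card B := addOrderOf_dvd_natCard x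
      have hnd : ¬ addOrderOf x ∣ p := fun h => hx (addOrderOf_dvd_iff_nsmul_eq_zero.1 h)
      have hord : addOrderOf x = Nat.card B := by
        rcases hB with hB | hB
        · rw [hB] at hd
          exact absurd hd hnd
        · rw [hB] at hd ⊢
          obtain ⟨i, hi, h⟩ := (Nat.dvd_prime_pow hp.out).1 hd
          have hi2 : i = 2 := by
            by_contra hcon
            have hi1 : i ≤ 1 := by omega
            apply hnd
            rw [h]
            exact (pow_dvd_pow p hi1).trans (by rw [pow_one])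
          rw [h, hi2]
      exact isAddCyclic_of_addOrderOf_eq_card x hord
    have hne : Nat.card B ≠ 0 := Nat.card_pos.ne'
    have : NeZero (Nat.card B) := ⟨hne⟩
    obtain ⟨e⟩ : Nonempty (ZMod (Nat.card B) ≃+ B) := ⟨zmodAddCyclicAddEquiv hcyc⟩
    set S' : Finset (ZMod (Nat.card B)) := S.map e.symm.toEquiv.toEmbedding with hS'
    have hmem : ∀ s, s ∈ S' ↔ e s ∈ S := by
      intro s
      rw [hS', Finset.mem_map_equiv]
      rfl
    have hodd : Odd (Nat.card B) := by
      have hpo : Odd p := hp.out.odd_of_ne_two (by omega)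
      rcases hB with hB | hB
      · rwa [hB]
      · rw [hB]
        exact hpo.pow
    have hcov := covers_of_ld (ld_even (Nat.card B) S' (by
      intro s hs
      rw [hmem] at hs ⊢
      rw [map_neg]
      exact hneg _ hs) (by
      intro s hs h2
      rw [hmem] at hs
      have h3 : e s + e s = 0 := by rw [← map_add, h2, map_zero]
      have h4 : addOrderOf (e s) ∣ 2 := by
        rw [addOrderOf_dvd_iff_nsmul_eq_zero, two_nsmul, h3]
      have h5 : addOrderOf (e s) ∣ Nat.card B := addOrderOf_dvd_natCard _
      have h6 : addOrderOf (e s) ∣ 1 := by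
        rw [← (Nat.coprime_two_left.2 hodd).gcd_eq_one]
        exact Nat.dvd_gcd h4 h5
      have h7 : addOrderOf (e s) = 1 := Nat.dvd_one.1 h6
      rw [AddMonoid.addOrderOf_eq_one_iff] at h7
      rw [h7] at hs
      exact h0 hs) (Y.comap e) (by
      intro v w
      rw [hmem, SimpleGraph.comap_adj, hY, map_sub]))
    have hc : S'.card = S.card := Finset.card_map _
    rw [hc] at hcov
    refine hcov.equiv (fun b => e.symm b) e.symm.injective fun u v huv => ?_
    rw [SimpleGraph.comap_adj]
    simpa using huv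

/-- Vertex-transitive graphs of order `p` or `p ^ 2`. -/
theorem covers_transitive (h5 : 5 ≤ p) {V : Type} [Finite V]
    (hV : Nat.card V = p ∨ Nat.card V = p ^ 2) (X : SimpleGraph V)
    (ht : ∀ u v : V, ∃ φ : X ≃g X, φ u = v) :
    ∃ r, (∀ v, (X.neighborSet v).ncard = r) ∧ (0 < r → Covers X ((r + 2) / 2)) := by
  classical
  -- the group of the automorphisms
  let K : Subgroup (Equiv.Perm V) :=
    { carrier := {σ | ∀ u v, X.Adj (σ u) (σ v) ↔ X.Adj u v}
      mul_mem' := by
        intro a b ha hb u v
        rw [Equiv.Perm.mul_apply, Equiv.Perm.mul_apply, ha, hb]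
      one_mem' := fun u v => Iff.rfl
      inv_mem' := by
        intro a ha u v
        have h1 : ∀ w, a (a⁻¹ w) = w := fun w => Equiv.apply_symm_apply a w
        have h2 := ha (a⁻¹ u) (a⁻¹ v)
        rw [h1, h1] at h2
        exact h2.symm }
  obtain ⟨A, hAK, hcomm, htr⟩ := exists_abelian (p := p) K hV (by
    intro u v
    obtain ⟨φ, hφ⟩ := ht u v
    exact ⟨φ.toEquiv, fun u v => φ.map_rel_iff, hφ⟩)
  have hpos : 0 < Nat.card V := by
    rcases hV with h | h <;> rw [h]
    · exact hp.out.pos
    · exact pow_pos hp.out.pos 2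
  have hne : Nonempty V := (Nat.card_pos_iff.1 hpos).1
  obtain ⟨v0⟩ := hne
  let _ : CommGroup A :=
    { (inferInstance : Group A) with
      mul_comm := fun a b => Subtype.ext (hcomm a a.2 b b.2) }
  let ev : A → V := fun a => (a : Equiv.Perm V) v0
  have hev : Function.Bijective ev := by
    constructor
    · intro a b hab
      apply Subtype.ext
      apply Equiv.ext
      intro u
      obtain ⟨c, hc, rfl⟩ := htr v0 u
      have h1 : (a : Equiv.Perm V) (c v0) = c ((a : Equiv.Perm V) v0) := by
        rw [← Equiv.Perm.mul_apply, hcomm a a.2 c hc, Equiv.Perm.mul_apply]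
      have h2 : (b : Equiv.Perm V) (c v0) = c ((b : Equiv.Perm V) v0) := by
        rw [← Equiv.Perm.mul_apply, hcomm b b.2 c hc, Equiv.Perm.mul_apply]
      have hab' : (a : Equiv.Perm V) v0 = (b : Equiv.Perm V) v0 := hab
      rw [h1, h2, hab']
    · intro v
      obtain ⟨a, ha, h⟩ := htr v0 v
      exact ⟨⟨a, ha⟩, h⟩
  let E : Additive A ≃ V := Additive.toMul.trans (Equiv.ofBijective ev hev)
  have hE : ∀ x : Additive A, E x = ((Additive.toMul x : A) : Equiv.Perm V) v0 := fun x => rfl
  let Y : SimpleGraph (Additive A) := X.comap E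
  have hadj : ∀ v w : Additive A, Y.Adj v w ↔ Y.Adj 0 (w - v) := by
    intro v w
    rw [SimpleGraph.comap_adj, SimpleGraph.comap_adj, hE, hE, hE, hE]
    have h1 := hAK (Additive.toMul v : A).2 v0 (((Additive.toMul (w - v) : A) : Equiv.Perm V) v0)
    have h2 : ((Additive.toMul v : A) : Equiv.Perm V)
        (((Additive.toMul (w - v) : A) : Equiv.Perm V) v0) =
        ((Additive.toMul w : A) : Equiv.Perm V) v0 := by
      rw [← Equiv.Perm.mul_apply, ← Subgroup.coe_mul, ← toMul_add, add_sub_cancel]
    rw [h2] at h1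
    exact h1
  have hfin : Finite (Additive A) := Finite.of_equiv V E.symm
  let _ : Fintype (Additive A) := Fintype.ofFinite _
  set S : Finset (Additive A) := Finset.univ.filter fun x => Y.Adj 0 x with hS
  have hY : ∀ v w, Y.Adj v w ↔ w - v ∈ S := by
    intro v w
    rw [hadj, hS, Finset.mem_filter]
    simp
  have hdegY := cay_deg_add S Y hY
  have hdeg : ∀ v, (X.neighborSet v).ncard = S.card := by
    intro v
    rw [← hdegY (E.symm v)]
    have h1 : X.neighborSet v = E '' (Y.neighborSet (E.symm v)) := by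
      ext w
      constructor
      · intro hw
        refine ⟨E.symm w, ?_, E.apply_symm_apply w⟩
        show Y.Adj (E.symm v) (E.symm w)
        rw [SimpleGraph.comap_adj, E.apply_symm_apply, E.apply_symm_apply]
        exact hw
      · rintro ⟨x, hx, rfl⟩
        have hx' : Y.Adj (E.symm v) x := hx
        rw [SimpleGraph.comap_adj, E.apply_symm_apply] at hx'
        exact hx'
    rw [h1, Set.ncard_image_of_injective _ E.injective]
  refine ⟨S.card, hdeg, fun hr => ?_⟩
  have hcard : Nat.card (Additive A) = p ∨ Nat.card (Additive A) = p ^ 2 := by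
    rw [Nat.card_congr E]
    exact hV
  have h1 := covers_cay h5 hcard S (Finset.card_pos.1 hr) Y hY
  have h2 : (S.card + 2) / 2 = S.card / 2 + 1 := by omega
  rw [h2]
  refine h1.equiv (fun v => E.symm v) E.symm.injective fun u v huv => ?_
  rw [SimpleGraph.comap_adj, E.apply_symm_apply, E.apply_symm_apply]
  exact huv

end Pool.Agent.H79.VT
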