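import Pool.Agent.H79.VT.Prod

set_option autoImplicit false

/-!
# Linear arboricity of vertex-transitive graphs of prime square order

`H931R3.LA.la G` is the linear arboricity (the same expression as in the frozen statement S07085).

The linear arboricity conjecture holds for all vertex-transitive graphs with `p` or `p ^ 2` vertices,
`p ≥ 5` a prime number, for all Cartesian products of such graphs, and for all finite covers of these
products.

Proof. A Sylow `p`-subgroup `P` of the group of automorphisms of a vertex-transitive graph with `p ^ 2`
vertices is transitive. Let `z ≠ 1` be in the centre of `P`, and let `g ∈ P` move a vertex to a vertex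
outside its orbit under `z` (if there is one). The group generated by `z` and `g` is abelian and
transitive, hence regular; it is cyclic or elementary abelian. So the graph is a Cayley graph of a
cyclic group or of `(ℤ/p)²`; for these the conjecture is known (starting library: `Circulants`,
`ElementaryAbelian`). The products are treated with the bound
`la (G □ H) ≤ max (la G) (la H + ⌈Δ(G) / 2⌉)` (starting library: `CartesianProducts`).
-/

namespace Pool.Agent.H79.VT.VertexTransitive

open SimpleGraph H931R3.LA Pool.Agent.H79.VT

/-- **The linear arboricity conjecture for vertex-transitive graphs with `p` or `p ^ 2` vertices,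
`p ≥ 5` prime, their Cartesian products and the finite covers of these.** Let `X` be in the class
`TransProd`. Then `X` is finite and regular, and if its degree `r` is positive then
`la X = ⌈(r + 1) / 2⌉`; every finite graph `G` with a locally injective homomorphism `f` to `X` (for
example every finite cover of `X`) satisfies `la G ≤ ⌈(r + 1) / 2⌉`, with equality if `G` is
`r`-regular. -/
theorem result (V : Type) (X : SimpleGraph V) (h : TransProd V X) :
    Finite V ∧ Nonempty V ∧ ∃ r, (∀ v, (X.neighborSet v).ncard = r) ∧
      (0 < r → la X = (r + 2) / 2 ∧
        ∀ (W : Type) [Finite W] [Nonempty W] (G : SimpleGraph W) (f : W → V),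
          (∀ a b, G.Adj a b → X.Adj (f a) (f b)) →
          (∀ a b c, G.Adj a b → G.Adj a c → f b = f c → b = c) →
          la G ≤ (r + 2) / 2 ∧ ((∀ w, (G.neighborSet w).ncard = r) → la G = (r + 2) / 2)) := by
  obtain ⟨h1, h2, r, he, hr, hc⟩ := h.main
  refine ⟨h1, h2, r, hr, fun h0 => ?_⟩
  have hb : bnd r = (r + 2) / 2 := by
    unfold bnd
    split_ifs <;> omega
  rw [hb] at hc
  refine ⟨Pool.Agent.W111.LAR.la_eq_of_cov h0 hr hc, ?_⟩
  intro W _ _ G f hom inj
  have h3 := Pool.Agent.TH525.FRG.cov_hom G X f hom inj _ hc
  exact ⟨la_le h3, fun hreg => Pool.Agent.W111.LAR.la_eq_of_cov h0 hreg h3⟩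

end Pool.Agent.H79.VT.VertexTransitive
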